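import Pool.Agent.Y967.MU.BUMP
import Pool.Agent.Y967.MU.SER
import Pool.Agent.Y967.MU.CAN1
import Pool.Agent.Y967.MU.CAN2
import Pool.Agent.Y967.MU.BDD
import Pool.Agent.Y967.MU.UNB
import Pool.Agent.Y967.MU.VOL2
import Pool.Agent.Y967.MU.RAJ
import Pool.Agent.Y967.MU.RED

/-!
# Null Moran sets are sets of uniqueness for all digit sets exactly when the bases are bounded

Let `M n ≥ 2` be integers.

1. If `#(D n) / M n → 1` then the Moran set is a set of multiplicity, and it has Lebesgue measure zero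
   exactly when the product of the `#(D n) / M n` is zero. There are no conditions on the digit sets
   and on the bases (they may be bounded on a subsequence).
2. All Moran sets of measure zero with the bases `M n` are sets of uniqueness if and only if the
   sequence `M n` is bounded.
-/

set_option autoImplicit false

open MeasureTheory Filter Topology

namespace Pool.Agent.Results.MP_c7f57c_an.BoundedBases

/-- `E ⊆ [0,1]` is a set of uniqueness: if a trigonometric series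
`∑ (a_n cos(2πnx) + b_n sin(2πnx))`, `n ≥ 0`, converges to `0` at every point of `[0,1] \ E`, then
`a_n = 0` for all `n ≥ 0` and `b_n = 0` for all `n ≥ 1` (the term of `b_0` is identically zero). -/
def IsSetOfUniqueness (E : Set ℝ) : Prop :=
  ∀ a b : ℕ → ℝ,
    (∀ x ∈ Set.Icc (0 : ℝ) 1 \ E, Tendsto (fun N : ℕ => ∑ n ∈ Finset.range N,
      (a n * Real.cos (2 * Real.pi * n * x) + b n * Real.sin (2 * Real.pi * n * x))) atTop (𝓝 0)) →
    (∀ n, a n = 0) ∧ ∀ n, 1 ≤ n → b n = 0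

/-- `D` is a sequence of digit sets for the bases `M`: `D_n` is a nonempty set of integers in
`[0, M_n - 1]`. -/
def DigitSets (M : ℕ → ℕ) (D : ℕ → Finset ℕ) : Prop := ∀ n, (D n).Nonempty ∧ ∀ d ∈ D n, d < M n

/-- The Moran set of the bases `M` and digit sets `D` (indices starting at `0`): all sums
`∑ d_n / (M_0 M_1 ⋯ M_n)` with `d_n ∈ D_n`. -/
def moranSet (M : ℕ → ℕ) (D : ℕ → Finset ℕ) : Set ℝ :=
  {x | ∃ d : ℕ → ℕ, (∀ n, d n ∈ D n) ∧
    HasSum (fun n => (d n : ℝ) / ∏ i ∈ Finset.range (n + 1), ((M i : ℕ) : ℝ)) x}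

open Pool.Agent.Y967.MU in
theorem multiplicity (M : ℕ → ℕ) (D : ℕ → Finset ℕ) (hM : ∀ n, 2 ≤ M n) (hD : DigitSets M D)
    (hF : Tendsto (fun n => ((D n).card : ℝ) / M n) atTop (𝓝 1)) :
    ¬ IsSetOfUniqueness (moranSet M D) := by
  intro hU
  have hok : Ok M D := ⟨hM, hD⟩
  obtain ⟨D', hok', hF', hsub, hj⟩ := RED.t_RED M D hok hF
  refine MULT.t_MULT M D' hok' (RAJ.t_RAJ M D' hok' hF') hj ?_
  intro a b hab
  apply hU a b
  intro x hx
  apply hab x
  refine ⟨hx.1, fun hx' => hx.2 ?_⟩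
  obtain ⟨d, hd, hs⟩ := hx'
  exact ⟨d, fun n => hsub n (hd n), hs⟩

/-- Moran sets, multiplicity, uniqueness and bounded bases. -/
theorem result :
    (∀ (M : ℕ → ℕ) (D : ℕ → Finset ℕ), (∀ n, 2 ≤ M n) → DigitSets M D →
      Tendsto (fun n => ((D n).card : ℝ) / M n) atTop (𝓝 1) →
        ¬ IsSetOfUniqueness (moranSet M D) ∧
        (volume (moranSet M D) = 0 ↔
          Tendsto (fun n => ∏ i ∈ Finset.range n, (((D i).card : ℝ) / M i)) atTop (𝓝 0))) ∧
    (∀ M : ℕ → ℕ, (∀ n, 2 ≤ M n) →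
      ((∀ D : ℕ → Finset ℕ, DigitSets M D → volume (moranSet M D) = 0 →
          IsSetOfUniqueness (moranSet M D)) ↔ ∃ B, ∀ n, M n ≤ B)) := by
  refine ⟨fun M D hM hD hF => ⟨multiplicity M D hM hD hF, ?_, ?_⟩, fun M hM => ⟨?_, ?_⟩⟩
  · exact Pool.Agent.Y967.MU.VOL2.t_VOL2 M D ⟨hM, hD⟩
  · exact Pool.Agent.Y967.MU.VOL.t_VOL M D ⟨hM, hD⟩
  · intro h
    by_contra hcon
    push Not at hcon
    obtain ⟨D, hok, hF, hN⟩ := Pool.Agent.Y967.MU.UNB.t_UNB M hM hcon
    exact multiplicity M D hM hok.2 hF (h D hok.2 (Pool.Agent.Y967.MU.VOL.t_VOL M D hok hN))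
  · intro hB D hD hv
    exact Pool.Agent.Y967.MU.BDD.t_BDD Pool.Agent.Y967.MU.BUMP.t_BUMP Pool.Agent.Y967.MU.SER.t_SER
      Pool.Agent.Y967.MU.CAN1.t_CAN1 Pool.Agent.Y967.MU.CAN2.t_CAN2 M hB D ⟨hM, hD⟩ hv

end Pool.Agent.Results.MP_c7f57c_an.BoundedBases
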